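import Pool.Agent.H23.GB.TargetsA

/-!
Board gb, removal of the weight: the approximate functional equation with locally varying bounds.
-/

set_option autoImplicit false

namespace Pool.Agent.H69.GH

open MeasureTheory Pool.Agent.H34.GM Pool.Agent.H34.GZ Pool.Agent.H34.GU Pool.Agent.H34.GA
open Pool.Agent.H23.GB

/-- the approximate functional equation, bounds near `t` -/
def T_AFG : Prop := ∀ m : ℕ, 1 ≤ m → ∀ (r0 B ε : ℝ) (A0 A1 : ℕ), 1 ≤ r0 → 0 < B → 0 < ε →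
  ∃ (k : ℝ → ℝ) (K : ℕ) (C : ℝ), Krn k ∧ 0 < C ∧
  ∀ (N d M : ℝ) (lam : ℕ → ℂ) (ψ ψ' : ℝ → ℂ), 1 ≤ N → 0 < d → d ≤ 1 / 2 → 0 ≤ M →
  ContinuousOn ψ (Set.Ioi 0) → ContinuousOn ψ' (Set.Ioi 0) →
  (∀ r : ℝ, 0 < r → ψ r ≠ 0 → r0⁻¹ ≤ r ∧ r ≤ r0) →
  (∀ r : ℝ, 0 < r → ‖ψ' r‖ ≤ M * min 1 ((r / d) ^ K)) →
  (∀ n : ℕ, 1 ≤ n → ‖(n : ℂ) ^ (((m : ℂ) - 1) / 2) * lam n‖ ≤ B * (n : ℝ) ^ m) →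
  (∀ r : ℝ, 0 < r → thA m ψ lam r = ((r ^ (m ^ 2) * N ^ (-((m : ℝ) / 2)) : ℝ) : ℂ) *
    (starRingEnd ℂ) (thA m ψ' lam (N ^ (1 / (m : ℝ)) / r))) →
  ∀ t M1 : ℝ, 0 ≤ M1 →
  (∀ u : ℝ, ‖MelA m ψ (1 / 2 + u * Complex.I)‖ ≤ M1 * (1 + |u - t|) ^ A1) →
  (∀ u : ℝ, ‖MelA m ψ' (1 / 2 + u * Complex.I)‖ ≤ M1 * (1 + |u - t|) ^ A1) →
  ∀ X : ℕ, C * (N * d⁻¹ ^ m) ^ (1 / 2 : ℝ) * (N / d) ^ ε ≤ X →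
    ‖LmA m ψ lam (1 / 2 + t * Complex.I)‖ ≤ C * (N / d) ^ ε * (M * (d / N) ^ A0 +
      M1 * ∫ τ : ℝ, k τ * ‖SX lam X (1 / 2 + ((t + τ : ℝ) : ℂ) * Complex.I)‖)

/-- upper bound for the zeta integral of the bump function -/
def T_ZBU : Prop := ∀ (m : ℕ) (χ : ℝ → ℝ), 1 ≤ m → Prof χ → ∃ C : ℝ, 0 < C ∧
  ∀ δ : ℝ, 0 < δ → δ ≤ 1 / 2 → ∀ f : Mat m → ℂ, Cof m f 1 → ∀ u : ℝ,
    ‖ZA (bi m χ δ) f ((1 / 2 + u * Complex.I : ℂ) - m)‖ ≤ C * δ ^ (m * m)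

/-- one value on the critical line against short sums; the factor is constant unless `1/2 + it` is
close to one of the points `k + μ_j` -/
def T_HYB : Prop := ∀ m : ℕ, 1 ≤ m → ∀ ε : ℝ, 0 < ε → ∃ (k : ℝ → ℝ) (C : ℝ), Krn k ∧ 0 < C ∧
  ∀ (N : ℕ) [NeZero N] (T : ℕ → Finset (ZM m)) (D : Set (V m)), SysZ m N T D →
  ∀ (F : Mat m → VN m N → ℂ) (lam : ℕ → ℂ) (mu : Fin m → ℂ) (P : ℝ), CusA m N T F lam mu →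
  nU D F = 1 → Lip D F P → 1 ≤ P → ∀ L : ℂ → ℂ, IsL m 1 lam L → ∀ t : ℝ, |t| ≤ P →
  ∀ X : ℕ, C * ((N : ℝ) * P ^ m) ^ (1 / 2 : ℝ) * (N * P) ^ ε ≤ X →
    ‖L (1 / 2 + t * Complex.I)‖ *
      ∏ i : Fin m, ∏ j, min 1 ‖(1 / 2 + t * Complex.I : ℂ) - ((i : ℕ) + 1) - mu j‖ ≤
    C * (N * P) ^ ε *
      (1 + ∫ τ : ℝ, k τ * ‖SX lam X (1 / 2 + ((t + τ : ℝ) : ℂ) * Complex.I)‖)

end Pool.Agent.H69.GH
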