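import Pool.Agent.H23.GB.AF4
import Pool.Agent.H69.GH.Targets

/-!
Board gb, removal of the weight: preparations for the approximate functional equation with locally
varying bounds (after `Pool/Agent/H23/GB/AF2.lean`, `AF4.lean` of helper23).
-/

set_option autoImplicit false

namespace Pool.Agent.H69.GH

open MeasureTheory Real Pool.Agent.H34.GA Pool.Agent.H23.GB Pool.Agent.H23.GB.AF

/-- integrability with polynomial growth -/
lemma k0_pol (m : ℕ) (hm : 1 ≤ m) (t : ℝ) (A1 : ℕ) :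
    Integrable (fun ξ : ℝ => k0 ξ * (1 + |t - 2 * π * ξ / m - t|) ^ A1) := by
  have hmr : (1 : ℝ) ≤ m := by exact_mod_cast hm
  obtain ⟨C, hC, h⟩ := k0_dec (A1 + 2)
  have h1 : Integrable (fun τ : ℝ => (1 + ‖τ‖) ^ (-(2 : ℝ))) := integrable_one_add_norm (by simp)
  have hpi := Real.pi_gt_three
  refine Integrable.mono' (h1.const_mul (C * (2 * π) ^ A1)) ?_
    (Filter.Eventually.of_forall fun ξ => ?_)
  · exact (k0_cont.mul (by fun_prop)).aestronglyMeasurable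
  · have h2 : 1 + |t - 2 * π * ξ / m - t| ≤ 2 * π * (1 + |ξ|) := by
      have e1 : t - 2 * π * ξ / m - t = -(2 * π * ξ / m) := by ring
      rw [e1, abs_neg, abs_div, abs_mul, abs_of_pos (by positivity : (0 : ℝ) < 2 * π),
        abs_of_pos (by linarith : (0 : ℝ) < m)]
      have e2 : 2 * π * |ξ| / m ≤ 2 * π * |ξ| := div_le_self (by positivity) hmr
      nlinarith [abs_nonneg ξ]
    have h3 : (0 : ℝ) < 1 + |ξ| := by positivity
    have h4 := h ξ
    have h5 := k0_nn ξ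
    rw [Real.norm_of_nonneg (by positivity), Real.norm_eq_abs]
    have h6 : (1 + |ξ|) ^ (-((A1 + 2 : ℕ) : ℝ)) * (1 + |ξ|) ^ A1 = (1 + |ξ|) ^ (-(2 : ℝ)) := by
      rw [← Real.rpow_natCast (1 + |ξ|) A1, ← Real.rpow_add h3]
      congr 1
      push_cast
      ring
    calc k0 ξ * (1 + |t - 2 * π * ξ / m - t|) ^ A1 ≤
          (C * (1 + |ξ|) ^ (-((A1 + 2 : ℕ) : ℝ))) * (2 * π * (1 + |ξ|)) ^ A1 :=
          mul_le_mul h4 (pow_le_pow_left₀ (by positivity) h2 _) (by positivity) (by positivity)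
      _ = C * (2 * π) ^ A1 * ((1 + |ξ|) ^ (-((A1 + 2 : ℕ) : ℝ)) * (1 + |ξ|) ^ A1) := by
          rw [mul_pow]; ring
      _ = _ := by rw [h6]

/-- the truncated sum against a cut-off function -/
lemma dir_bdg {φ : ℝ → ℂ} {σ : ℝ} (hφ : Integrable fun x => φ x * (Real.exp (-(σ * x)) : ℂ))
    {G Gh : ℝ → ℂ} {J : ℝ} (hG : Cut G Gh J) {m : ℕ} (hm : 1 ≤ m) (t M : ℝ) (A1 : ℕ)
    (hM : ∀ u : ℝ, ‖∫ x, φ x * ex σ m u x‖ ≤ M * (1 + |u - t|) ^ A1) (S : Finset ℕ)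
    (a : ℕ → ℂ) (l : ℕ → ℝ) :
    Integrable (fun x => (∑ n ∈ S, a n * φ (x - l n)) * G x * ex σ m t x) ∧
    ‖∫ x, (∑ n ∈ S, a n * φ (x - l n)) * G x * ex σ m t x‖ ≤
      J * M * ∫ ξ, k0 ξ * ((1 + |t - 2 * π * ξ / m - t|) ^ A1 *
        ‖∑ n ∈ S, a n * ex σ m (t - 2 * π * ξ / m) (l n)‖) := by
  have hm0 : (m : ℝ) ≠ 0 := by
    have : (1 : ℝ) ≤ m := by exact_mod_cast hm
    positivity
  have h1 : ∀ x, (∑ n ∈ S, a n * φ (x - l n)) * G x * ex σ m t x =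
      ∑ n ∈ S, a n * (φ (x - l n) * G x * ex σ m t x) := by
    intro x
    rw [Finset.sum_mul, Finset.sum_mul]
    refine Finset.sum_congr rfl fun n _ => ?_
    ring
  have hI : Integrable (fun ξ => k0 ξ * ((1 + |t - 2 * π * ξ / m - t|) ^ A1 *
      ‖∑ n ∈ S, a n * ex σ m (t - 2 * π * ξ / m) (l n)‖)) := by
    have h0 : (fun ξ => k0 ξ * ((1 + |t - 2 * π * ξ / m - t|) ^ A1 *
        ‖∑ n ∈ S, a n * ex σ m (t - 2 * π * ξ / m) (l n)‖)) =
        fun ξ => (k0 ξ * (1 + |t - 2 * π * ξ / m - t|) ^ A1) *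
          ‖∑ n ∈ S, a n * ex σ m (t - 2 * π * ξ / m) (l n)‖ := by
      funext ξ
      ring
    rw [h0]
    refine Integrable.mul_bdd (c := ∑ n ∈ S, ‖a n‖ * Real.exp (-(σ * l n)))
      (k0_pol m hm t A1) ?_ ?_
    · have : Continuous fun ξ : ℝ => ∑ n ∈ S, a n * ex σ m (t - 2 * π * ξ / m) (l n) := by
        unfold ex
        fun_prop
      exact this.norm.aestronglyMeasurable
    · refine Filter.Eventually.of_forall fun ξ => ?_
      rw [norm_norm]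
      refine (norm_sum_le _ _).trans (Finset.sum_le_sum fun n _ => ?_)
      rw [norm_mul, ex_norm]
  refine ⟨?_, ?_⟩
  · simp only [h1]
    exact integrable_finsetSum _ fun n _ => (one_term hφ hG hm0 t (l n)).1.const_mul _
  · have h2 : ∫ x, (∑ n ∈ S, a n * φ (x - l n)) * G x * ex σ m t x =
        ∫ ξ, (∑ n ∈ S, a n * ex σ m (t - 2 * π * ξ / m) (l n)) *
          (Gh ξ * ∫ x, φ x * ex σ m (t - 2 * π * ξ / m) x) := by
      rw [integral_congr_ae (Filter.Eventually.of_forall h1), integral_finsetSum _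
        fun n _ => (one_term hφ hG hm0 t (l n)).1.const_mul _]
      have h3 : ∀ n ∈ S, ∫ x, a n * (φ (x - l n) * G x * ex σ m t x) = ∫ ξ, a n *
          (Gh ξ * (ex σ m (t - 2 * π * ξ / m) (l n) *
            ∫ x, φ x * ex σ m (t - 2 * π * ξ / m) x)) := by
        intro n _
        rw [integral_const_mul, (one_term hφ hG hm0 t (l n)).2.2, integral_const_mul]
      rw [Finset.sum_congr rfl h3, ← integral_finsetSum _
        fun n _ => (one_term hφ hG hm0 t (l n)).2.1.const_mul _]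
      refine integral_congr_ae (Filter.Eventually.of_forall fun ξ => ?_)
      simp only []
      rw [Finset.sum_mul]
      refine Finset.sum_congr rfl fun n _ => ?_
      ring
    rw [h2, ← integral_const_mul]
    refine norm_integral_le_of_norm_le (hI.const_mul _) (Filter.Eventually.of_forall fun ξ => ?_)
    rw [norm_mul, norm_mul]
    have h4 := hG.bd ξ
    have h5 := hM (t - 2 * π * ξ / m)
    have h6 : ‖Gh ξ‖ * ‖∫ x, φ x * ex σ m (t - 2 * π * ξ / m) x‖ ≤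
        (J * k0 ξ) * (M * (1 + |t - 2 * π * ξ / m - t|) ^ A1) :=
      mul_le_mul h4 h5 (norm_nonneg _) ((norm_nonneg _).trans h4)
    calc _ ≤ ‖∑ n ∈ S, a n * ex σ m (t - 2 * π * ξ / m) (l n)‖ *
          ((J * k0 ξ) * (M * (1 + |t - 2 * π * ξ / m - t|) ^ A1)) :=
          mul_le_mul_of_nonneg_left h6 (norm_nonneg _)
      _ = _ := by ring

/-- the kernel -/
noncomputable def kA (m A1 : ℕ) (τ : ℝ) : ℝ := kk m τ * (1 + |τ|) ^ A1

lemma kA_krn (m A1 : ℕ) (hm : 1 ≤ m) : Krn (kA m A1) := by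
  have hk := kk_krn m hm
  refine ⟨?_, fun τ => mul_nonneg (hk.nn τ) (by positivity), fun K => ?_⟩
  · unfold kA
    exact hk.cont.mul (by fun_prop)
  · obtain ⟨C, hC, h⟩ := hk.dec (K + A1)
    refine ⟨C, hC, fun τ => ?_⟩
    have h3 : (0 : ℝ) < 1 + |τ| := by positivity
    unfold kA
    have h6 : (1 + |τ|) ^ (-((K + A1 : ℕ) : ℝ)) * (1 + |τ|) ^ A1 = (1 + |τ|) ^ (-(K : ℝ)) := by
      rw [← Real.rpow_natCast (1 + |τ|) A1, ← Real.rpow_add h3]
      congr 1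
      push_cast
      ring
    calc kk m τ * (1 + |τ|) ^ A1 ≤ (C * (1 + |τ|) ^ (-((K + A1 : ℕ) : ℝ))) * (1 + |τ|) ^ A1 :=
          mul_le_mul_of_nonneg_right (h τ) (by positivity)
      _ = C * ((1 + |τ|) ^ (-((K + A1 : ℕ) : ℝ)) * (1 + |τ|) ^ A1) := by ring
      _ = _ := by rw [h6]

lemma kA_int (m A1 : ℕ) (hm : 1 ≤ m) (f : ℝ → ℝ) (t : ℝ) :
    ∫ ξ, k0 ξ * ((1 + |t - 2 * π * ξ / m - t|) ^ A1 * f (t - 2 * π * ξ / m)) =
      ∫ τ, kA m A1 τ * f (t + τ) := by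
  have h1 := kk_int m hm (fun u => (1 + |u - t|) ^ A1 * f u) t
  rw [h1]
  refine integral_congr_ae (Filter.Eventually.of_forall fun τ => ?_)
  simp only []
  unfold kA
  rw [add_sub_cancel_left]
  ring

/-- the dual integral -/
lemma dual_partg {m : ℕ} (hm : 1 ≤ m) (K1 J A1 : ℕ) {B M M1 d c : ℝ} (hB : 0 < B) (hM : 0 ≤ M)
    (hd : 0 < d) {lam : ℕ → ℂ} {ψ' : ℝ → ℂ} (hc : ContinuousOn ψ' (Set.Ioi 0))
    (h1 : ∀ r : ℝ, 0 < r → ‖ψ' r‖ ≤ M * min 1 ((r / d) ^ (m * (m + 2 + K1))))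
    (h2 : ∀ n : ℕ, 1 ≤ n → ‖(n : ℂ) ^ (((m : ℂ) - 1) / 2) * lam n‖ ≤ B * (n : ℝ) ^ m)
    (X : ℕ) (hX : 1 ≤ X) (t : ℝ)
    (h3 : ∀ u : ℝ, ‖∫ x, ψ' (Real.exp x) * ex ((m : ℝ) ^ 2 / 2) m u x‖ ≤
      M1 * (1 + |u - t|) ^ A1)
    (hD : Integrable fun y => thA m ψ' lam (Real.exp y) * ((gs (c - y) : ℝ) : ℂ) *
      ex ((m : ℝ) ^ 2 / 2) m t y) :
    ‖∫ y, thA m ψ' lam (Real.exp y) * ((gs (c - y) : ℝ) : ℂ) * ex ((m : ℝ) ^ 2 / 2) m t y‖ ≤
      J * M1 * (∫ τ : ℝ, kA m A1 τ * ‖SX lam X (1 / 2 + ((t + τ : ℝ) : ℂ) * Complex.I)‖) +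
      B * M * S0 * (d⁻¹ ^ (m * (m + 2 + K1)) * ((X : ℝ) ^ K1)⁻¹ *
        Real.exp ((((m * (m + 2 + K1) : ℕ) : ℝ) - (m : ℝ) ^ 2 / 2) * c) +
        d⁻¹ ^ (m * (m + 2 + K1)) *
        Real.exp ((((m * (m + 2 + K1) : ℕ) : ℝ) - (m : ℝ) ^ 2 / 2) * (c - J))) := by
  have hmr : (1 : ℝ) ≤ m := by exact_mod_cast hm
  have hm0 : (m : ℝ) ≠ 0 := by positivity
  set σ : ℝ := (m : ℝ) ^ 2 / 2 with hσ
  set K : ℕ := m * (m + 2 + K1) with hK
  have hKr : (K : ℝ) = m * (m + 2 + K1) := by rw [hK]; push_cast; ring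
  have hK1r : (0 : ℝ) ≤ K1 := Nat.cast_nonneg K1
  have hKσ : 1 ≤ (K : ℝ) - σ := by
    rw [hKr, hσ]
    nlinarith [mul_nonneg (by linarith : (0 : ℝ) ≤ m) hK1r]
  obtain ⟨Gh, hG⟩ := cut2 c J
  have hφ : Integrable fun x => ψ' (Real.exp x) * (Real.exp (-(σ * x)) : ℂ) :=
    dual_int hm (by rw [hK]; exact Nat.mul_le_mul_left m (by omega)) hM hd hc h1
  obtain ⟨hi1, hb1⟩ := dir_bdg hφ hG hm t M1 A1 h3 (Finset.Icc 1 X) (ac m lam) (ll m)
  have hsx : ∀ t : ℝ, ∑ n ∈ Finset.Icc 1 X, ac m lam n * ex σ m t (ll m n) =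
      SX lam X (1 / 2 + (t : ℂ) * Complex.I) := fun t => sum_SX hm lam X t
  simp only [hsx] at hb1
  have hkk := kA_int m A1 hm (fun u => ‖SX lam X (1 / 2 + (u : ℂ) * Complex.I)‖) t
  rw [hkk] at hb1
  set D1 : ℝ → ℂ := fun y => (∑ n ∈ Finset.Icc 1 X, ac m lam n * ψ' (Real.exp (y - ll m n))) *
    ((gs (c - y) - gs (c - y - J) : ℝ) : ℂ) * ex σ m t y with hD1
  set D : ℝ → ℂ := fun y => thA m ψ' lam (Real.exp y) * ((gs (c - y) : ℝ) : ℂ) * ex σ m t y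
    with hDd
  have hsplit : ∫ y, D y = (∫ y, D1 y) + ∫ y, (D y - D1 y) := by
    rw [integral_sub hD hi1]
    ring
  rw [hsplit]
  refine (norm_add_le _ _).trans (add_le_add hb1 ?_)
  set A : ℝ := B * M * d⁻¹ ^ K * S0 with hA
  have hS := S0_nn
  have hA0 : 0 ≤ A := by positivity
  obtain ⟨hmi, hme⟩ := maj_int (k := (K : ℝ) - σ) (A1 := A * ((X : ℝ) ^ K1)⁻¹) (A2 := A)
    (c1 := c) (c2 := c - J) (by linarith)
  have hpt : ∀ y, ‖D y - D1 y‖ ≤
      (Set.Iic c).indicator (fun y => A * ((X : ℝ) ^ K1)⁻¹ * Real.exp (((K : ℝ) - σ) * y)) y +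
      (Set.Iic (c - J)).indicator (fun y => A * Real.exp (((K : ℝ) - σ) * y)) y := by
    intro y
    obtain ⟨hs1, hs2⟩ := dual_bd hm K1 hB hM hd h1 h2 X hX y
    set Sm := ∑ n ∈ Finset.Icc 1 X, ac m lam n * ψ' (Real.exp (y - ll m n)) with hSm
    have he : D y - D1 y = ((thA m ψ' lam (Real.exp y) - Sm) * ((gs (c - y) : ℝ) : ℂ) +
        Sm * ((gs (c - y - J) : ℝ) : ℂ)) * ex σ m t y := by
      simp only [hDd, hD1]
      rw [← hSm]
      push_cast
      ring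
    rw [he, norm_mul, ex_norm]
    have hE : (Real.exp y / d) ^ K = d⁻¹ ^ K * Real.exp (K * y) := by
      rw [div_eq_mul_inv, mul_pow, ← Real.exp_nat_mul]
      ring
    have hexp : Real.exp (((K : ℝ) - σ) * y) = Real.exp (K * y) * Real.exp (-(σ * y)) := by
      rw [← Real.exp_add]
      congr 1
      ring
    have hp1 : ‖(thA m ψ' lam (Real.exp y) - Sm) * ((gs (c - y) : ℝ) : ℂ)‖ *
        Real.exp (-(σ * y)) ≤ (Set.Iic c).indicator
          (fun y => A * ((X : ℝ) ^ K1)⁻¹ * Real.exp (((K : ℝ) - σ) * y)) y := by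
      rw [norm_mul, Complex.norm_real, Real.norm_of_nonneg (gs_nn _)]
      by_cases hy : y ≤ c
      · rw [Set.indicator_of_mem (by exact hy)]
        calc ‖thA m ψ' lam (Real.exp y) - Sm‖ * gs (c - y) * Real.exp (-(σ * y)) ≤
              (B * M * (Real.exp y / d) ^ K * ((X : ℝ) ^ K1)⁻¹ * S0) * 1 *
                Real.exp (-(σ * y)) := by
              refine mul_le_mul_of_nonneg_right ?_ (Real.exp_pos _).le
              exact mul_le_mul hs2 (gs_le _) (gs_nn _) ((norm_nonneg _).trans hs2)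
          _ = _ := by rw [hE, hexp, hA]; ring
      · rw [Set.indicator_of_notMem (by exact hy), gs_zero (by linarith)]
        simp
    have hp2 : ‖Sm * ((gs (c - y - J) : ℝ) : ℂ)‖ *
        Real.exp (-(σ * y)) ≤ (Set.Iic (c - J)).indicator
          (fun y => A * Real.exp (((K : ℝ) - σ) * y)) y := by
      rw [norm_mul, Complex.norm_real, Real.norm_of_nonneg (gs_nn _)]
      by_cases hy : y ≤ c - J
      · rw [Set.indicator_of_mem (by exact hy)]
        calc ‖Sm‖ * gs (c - y - J) * Real.exp (-(σ * y)) ≤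
              (B * M * (Real.exp y / d) ^ K * S0) * 1 * Real.exp (-(σ * y)) := by
              refine mul_le_mul_of_nonneg_right ?_ (Real.exp_pos _).le
              exact mul_le_mul hs1 (gs_le _) (gs_nn _) ((norm_nonneg _).trans hs1)
          _ = _ := by rw [hE, hexp, hA]; ring
      · rw [Set.indicator_of_notMem (by exact hy), gs_zero (by linarith)]
        simp
    calc _ ≤ (‖(thA m ψ' lam (Real.exp y) - Sm) * ((gs (c - y) : ℝ) : ℂ)‖ +
          ‖Sm * ((gs (c - y - J) : ℝ) : ℂ)‖) * Real.exp (-(σ * y)) :=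
          mul_le_mul_of_nonneg_right (norm_add_le _ _) (Real.exp_pos _).le
      _ = _ := add_mul _ _ _
      _ ≤ _ := add_le_add hp1 hp2
  refine (norm_integral_le_of_norm_le hmi (Filter.Eventually.of_forall hpt)).trans ?_
  rw [hme]
  refine (div_le_self (by positivity) hKσ).trans (le_of_eq ?_)
  rw [hA]
  ring

end Pool.Agent.H69.GH
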