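import Pool.Agent.H69.GB.HYA
import Pool.Agent.H69.GH.Targets

/-!
Board gb, removal of the weight: one value on the critical line against short sums.
-/

set_option autoImplicit false

namespace Pool.Agent.H69.GH

open MeasureTheory Pool.Agent.H34.GM Pool.Agent.H34.GZ Pool.Agent.H34.GU Pool.Agent.H34.GA
open Pool.Agent.H23.GB Pool.Agent.H69.GA Pool.Agent.H69.GB

/-- the products of the factors at two points -/
theorem hyb_prod {m : ℕ} (w : Fin m → Fin m → ℂ)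
    (h0 : 0 < ∏ i : Fin m, ∏ j, min 1 ‖w i j‖) :
    (∏ i : Fin m, ∏ j, min 1 ‖w i j‖) ≤ ∏ i : Fin m, ∏ j, ‖w i j‖ ∧
    (∀ (w' : Fin m → Fin m → ℂ) (x : ℝ), (∀ i j, ‖w' i j - w i j‖ = x) →
      ∏ i : Fin m, ∏ j, ‖w' i j‖ ≤ (∏ i : Fin m, ∏ j, ‖w i j‖) /
        (∏ i : Fin m, ∏ j, min 1 ‖w i j‖) * (1 + x) ^ (m * m)) ∧
    0 < ∏ i : Fin m, ∏ j, ‖w i j‖ := by
  have hw : ∀ i j, 0 < ‖w i j‖ := by
    intro i j
    by_contra hc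
    have h1 : ‖w i j‖ = 0 := le_antisymm (not_lt.1 hc) (norm_nonneg _)
    have h2 : ∏ i : Fin m, ∏ j, min 1 ‖w i j‖ = 0 :=
      Finset.prod_eq_zero (Finset.mem_univ i) (Finset.prod_eq_zero (Finset.mem_univ j)
        (by rw [h1]; exact min_eq_right zero_le_one))
    rw [h2] at h0
    exact lt_irrefl _ h0
  refine ⟨?_, ?_, ?_⟩
  · exact Finset.prod_le_prod (fun i _ => Finset.prod_nonneg fun j _ =>
      le_min zero_le_one (norm_nonneg _)) fun i _ =>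
        Finset.prod_le_prod (fun j _ => le_min zero_le_one (norm_nonneg _)) fun j _ =>
          min_le_right _ _
  · intro w' x hx
    have h1 : (∏ i : Fin m, ∏ j, ‖w i j‖) / (∏ i : Fin m, ∏ j, min 1 ‖w i j‖) *
        (1 + x) ^ (m * m) = ∏ i : Fin m, ∏ j, (‖w i j‖ / min 1 ‖w i j‖ * (1 + x)) := by
      simp only [Finset.prod_mul_distrib, Finset.prod_div_distrib, Finset.prod_const,
        Finset.card_univ, Fintype.card_fin]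
      rw [← pow_mul]
    rw [h1]
    refine Finset.prod_le_prod (fun i _ => Finset.prod_nonneg fun j _ => norm_nonneg _)
      fun i _ => Finset.prod_le_prod (fun j _ => norm_nonneg _) fun j _ => ?_
    have h2 := hw i j
    have h3 : 0 < min 1 ‖w i j‖ := lt_min one_pos h2
    have hx0 : 0 ≤ x := by
      rw [← hx i j]
      exact norm_nonneg _
    have h4 : ‖w' i j‖ ≤ ‖w i j‖ + x := by
      have h5 := norm_add_le (w' i j - w i j) (w i j)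
      rw [sub_add_cancel, hx i j] at h5
      linarith
    have h6 : 1 ≤ ‖w i j‖ / min 1 ‖w i j‖ := by
      rw [one_le_div h3]
      exact min_le_right _ _
    have h7 : ‖w i j‖ ≤ ‖w i j‖ / min 1 ‖w i j‖ := by
      rw [le_div_iff₀ h3]
      exact mul_le_of_le_one_right h2.le (min_le_left _ _)
    calc ‖w' i j‖ ≤ ‖w i j‖ + x := h4
      _ ≤ ‖w i j‖ / min 1 ‖w i j‖ + ‖w i j‖ / min 1 ‖w i j‖ * x :=
          add_le_add h7 (le_mul_of_one_le_left hx0 h6)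
      _ = _ := by ring
  · exact Finset.prod_pos fun i _ => Finset.prod_pos fun j _ => hw i j

/-- the last step -/
theorem hyb_fin {x Pr0 Pr1 Z CA CZ CU cl E I M1 D0 dm : ℝ} (hx : 0 ≤ x) (hcl : 0 < cl)
    (hdm : 0 < dm) (hP0 : 0 < Pr0) (hP1 : 0 < Pr1) (h10 : Pr1 ≤ Pr0) (hCZ : 0 ≤ CZ)
    (hCU : 0 ≤ CU) (hE : 0 ≤ CA * E) (hI : 0 ≤ I) (hZ : cl * 1 * dm ≤ Z) (hD : D0 ≤ dm)
    (hM : M1 = CU * dm * (Pr0 / Pr1))
    (hA : x * (Pr0 * Z) ≤ CA * E * (CZ * D0 + M1 * I)) :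
    x * Pr1 ≤ CA * (CZ + CU) * cl⁻¹ * E * (1 + I) := by
  have h1 : x * Pr0 * (cl * dm) ≤ CA * E * (CZ * dm + CU * dm * (Pr0 / Pr1) * I) := by
    calc x * Pr0 * (cl * dm) = x * (Pr0 * (cl * 1 * dm)) := by ring
      _ ≤ x * (Pr0 * Z) :=
          mul_le_mul_of_nonneg_left (mul_le_mul_of_nonneg_left hZ hP0.le) hx
      _ ≤ _ := hA
      _ ≤ _ := by
          rw [hM]
          exact mul_le_mul_of_nonneg_left (add_le_add (mul_le_mul_of_nonneg_left hD hCZ) le_rfl)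
            hE
  have h2 : x * Pr1 = x * Pr0 * (cl * dm) * (Pr1 / Pr0 * (cl * dm)⁻¹) := by
    field_simp
  rw [h2]
  have h3 : Pr1 / Pr0 ≤ 1 := (div_le_one hP0).2 h10
  calc x * Pr0 * (cl * dm) * (Pr1 / Pr0 * (cl * dm)⁻¹) ≤
        CA * E * (CZ * dm + CU * dm * (Pr0 / Pr1) * I) * (Pr1 / Pr0 * (cl * dm)⁻¹) :=
        mul_le_mul_of_nonneg_right h1 (by positivity)
    _ = CA * E * cl⁻¹ * (CZ * (Pr1 / Pr0) + CU * I) := by
        field_simp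
    _ ≤ CA * E * cl⁻¹ * ((CZ + CU) * (1 + I)) := by
        refine mul_le_mul_of_nonneg_left ?_ (by positivity)
        have h4 : CZ * (Pr1 / Pr0) ≤ CZ * 1 := mul_le_mul_of_nonneg_left h3 hCZ
        nlinarith [mul_nonneg hCZ hI]
    _ = _ := by ring

theorem pf_HYB (hPRF : T_PRF) (hFR : T_FR1) (hAFG : T_AFG) (hZPE : T_ZPE)
    (hLMB : Pool.Agent.H23.GB.T_LMB) (hZLS : T_ZLS) (hZPB : T_ZPB) (hFEC : T_FEC)
    (hMLZ : T_MLZ) (hENA : T_ENA) (hCNR : T_CNR) (hCIF : T_CIF) (hCFA : T_CFA)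
    (hCFB : Pool.Agent.H34.GA.T_CFB) (hZAD : T_ZAD) (hSMA : Pool.Agent.H34.GA.T_SMA)
    (hPHB : T_PHB) (hBIA : T_BIA) (hZBU : T_ZBU) : T_HYB := by
  obtain ⟨χ, hχ⟩ := hPRF
  intro m hm ε hε
  have hmR : (1 : ℝ) ≤ m := by exact_mod_cast hm
  obtain ⟨B, hB, hLam⟩ := hLMB m hm
  obtain ⟨r0, hr0, hZ0⟩ := hZPB m χ 0 hm hχ
  obtain ⟨k, K, CA, hk, hCA, hA⟩ := hAFG m hm r0 B ε (m * m) (m * m) hr0 hB hε
  obtain ⟨CU, hCU, hU⟩ := hZBU m χ hm hχ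
  obtain ⟨CZ, hCZ, hZ⟩ := hZPB m χ K hm hχ
  obtain ⟨cl0, cl, hcl0, hcl, hZL⟩ := hZLS m χ hm hχ
  obtain ⟨CN, hCN, hNR⟩ := hCNR m hm
  obtain ⟨CP, cP, AP, hCP, hcP, hP⟩ := hPHB χ hχ m hm 1 0 one_pos
  have hCN0 : 0 < CN := by linarith
  have hCZ0 : 0 < CZ := by linarith
  obtain ⟨c, hc, hc2, hcN, hcl1⟩ : ∃ c : ℝ, 0 < c ∧ c ≤ 1 / 2 ∧ CN * c ≤ 1 / 4 ∧
      c * (m + 3) ≤ cl0 := by
    refine ⟨min (1 / 2) (min (1 / (4 * CN)) (cl0 / (m + 3))), ?_, min_le_left _ _, ?_, ?_⟩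
    · exact lt_min (by norm_num) (lt_min (by positivity) (by positivity))
    · have h1 : min (1 / 2) (min (1 / (4 * CN)) (cl0 / (m + 3))) ≤ 1 / (4 * CN) :=
        (min_le_right _ _).trans (min_le_left _ _)
      refine (mul_le_mul_of_nonneg_left h1 hCN0.le).trans (le_of_eq ?_)
      field_simp
    · have h1 : min (1 / 2) (min (1 / (4 * CN)) (cl0 / (m + 3))) ≤ cl0 / (m + 3) :=
        (min_le_right _ _).trans (min_le_right _ _)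
      rwa [le_div_iff₀ (by positivity)] at h1
  obtain ⟨C1, hC1⟩ : ∃ C1 : ℝ, C1 = CA * ((c⁻¹ ^ m) ^ (1 / 2 : ℝ) * c ^ (-ε)) := ⟨_, rfl⟩
  obtain ⟨C2, hC2⟩ : ∃ C2 : ℝ, C2 = CA * (CZ + CU) * cl⁻¹ * c ^ (-ε) := ⟨_, rfl⟩
  have hC1p : 0 < C1 := by
    rw [hC1]
    positivity
  have hC2p : 0 < C2 := by
    rw [hC2]
    positivity
  refine ⟨k, C1 + C2, hk, by positivity, ?_⟩
  intro N _ T D hS F lam mu P hF hn hLip hP1 L hLL t ht X hX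
  have hNZ : NZ F := spx_nz hS (by rw [hn]; exact one_ne_zero)
  have hP0 : 0 < P := by linarith
  have hN1 : (1 : ℝ) ≤ N := by
    have := hS.two_le
    exact_mod_cast (by omega : 1 ≤ N)
  have hN0 : (0 : ℝ) < N := by linarith
  obtain ⟨H, xv, hFr⟩ := hFR m N hm hS.two_le
  have hc1 : Cof m (c1 D F) 1 := by
    have h1 := hCFA m N T D hS F lam hF.toHecA
    rw [hn] at h1
    exact h1
  have hc2' : Cof m (c2 D H xv F) 1 := by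
    have h1 := hCFB m N T D hS H xv hFr F lam hF.toHecA
    rw [hn] at h1
    exact h1
  have hlam := hLam N T D hS F lam hF.toHecA hNZ
  obtain ⟨δ, hδd⟩ : ∃ δ : ℝ, δ = c / P := ⟨_, rfl⟩
  have hδ0 : 0 < δ := by
    rw [hδd]
    positivity
  have hδP : δ * P = c := by
    rw [hδd]
    field_simp
  have hδc : δ ≤ c := by
    rw [hδd]
    exact div_le_self hc.le hP1
  have hδ2 : δ ≤ 1 / 2 := hδc.trans hc2
  obtain ⟨hΦ, hΦ0, hΦW, -⟩ := hP δ hδ0 hδ2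
  have hbi := (hBIA m χ hm hχ)
  obtain ⟨Cb, hCb, hbi⟩ := hbi
  have hTg := (hbi δ hδ0 hδ2).1
  have hZ1 := hZ δ hδ0 hδ2 (c1 D F) hc1
  have hZ2 := hZ δ hδ0 hδ2 (c2 D H xv F) hc2'
  have hZ3 := (hZ0 δ hδ0 hδ2 (c1 D F) hc1).2.2
  have hZK : ∀ K : ℕ, ∃ C : ℝ, ∀ r : ℝ, 0 < r →
      ‖uu (Pool.Agent.H34.GA.cf (dD^[m] (bi m χ δ))) (c2 D H xv F) r‖ ≤ C * min 1 (r ^ K) := by
    intro K'
    obtain ⟨CK, hCK, hK⟩ := hZPB m χ K' hm hχ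
    refine ⟨CK * δ⁻¹ ^ K', fun r hr => ?_⟩
    exact hya_min (by linarith) hr hδ0 (by linarith) ((hK δ hδ0 hδ2 _ hc2').1 r hr)
  obtain ⟨Φ, hΦd⟩ : ∃ Φ : Mat m → ℂ, Φ = dD^[m] (bi m χ δ) := ⟨_, rfl⟩
  -- the zeta integral
  have hIfc := hCIF m N T D hS F lam mu hF
  have hpos : ∀ z, bi m χ δ z ≠ 0 → 0 < z.det := fun z hz => H84.GA.bi_pos hχ hδ0 hδ2 hz
  have hZA : ∀ u : ℝ, ‖ZA (dD^[m] (bi m χ δ)) (c1 D F) (1 / 2 + u * Complex.I)‖ =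
      (∏ i : Fin m, ∏ j, ‖(1 / 2 + u * Complex.I : ℂ) - ((i : ℕ) + 1) - mu j‖) *
        ‖ZA (bi m χ δ) (c1 D F) ((1 / 2 + u * Complex.I : ℂ) - m)‖ := fun u =>
    (hZAD m hm mu (c1 D F) 1 hc1 hIfc (bi m χ δ) hTg hpos (1 / 2 + u * Complex.I)).2
  have hZU := hU δ hδ0 hδ2 (c1 D F) hc1
  have hnear : ∀ z : Mat m, sz (z - 1) ≤ δ → ‖c1 D F z - ((1 : ℝ) : ℂ)‖ ≤ 1 / 4 := by
    intro z hz
    rw [Complex.ofReal_one]
    have h2 : CN * (δ * P) ≤ 1 / 4 := by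
      rw [hδP]
      exact hcN
    have h3 : δ ≤ δ * P := le_mul_of_one_le_right hδ0.le hP1
    have h4 : CN * sz (z - 1) ≤ 1 := by
      calc CN * sz (z - 1) ≤ CN * (δ * P) :=
            mul_le_mul_of_nonneg_left (hz.trans h3) hCN0.le
        _ ≤ 1 := by linarith
    refine (hNR N T D hS F lam hF.toHecA hn P hLip hP0.le z h4).trans ?_
    calc CN * P * sz (z - 1) ≤ CN * P * δ := mul_le_mul_of_nonneg_left hz (by positivity)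
      _ = CN * (δ * P) := by ring
      _ ≤ 1 / 4 := h2
  have hs : δ * (1 + ‖(1 / 2 + t * Complex.I : ℂ) - m‖) ≤ cl0 := by
    have h4 : ‖(1 / 2 + t * Complex.I : ℂ)‖ ≤ 1 / 2 + |t| := by
      refine (norm_add_le _ _).trans (le_of_eq ?_)
      rw [norm_mul, Complex.norm_I, mul_one, Complex.norm_real, Real.norm_eq_abs]
      norm_num
    have h5 : ‖(1 / 2 + t * Complex.I : ℂ) - m‖ ≤ 1 / 2 + |t| + m := by
      refine (norm_sub_le _ _).trans ?_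
      rw [Complex.norm_natCast]
      linarith
    have h6 : 1 + ‖(1 / 2 + t * Complex.I : ℂ) - m‖ ≤ (m + 3) * P := by
      nlinarith
    calc δ * (1 + ‖(1 / 2 + t * Complex.I : ℂ) - m‖) ≤ δ * ((m + 3) * P) :=
          mul_le_mul_of_nonneg_left h6 hδ0.le
      _ = (δ * P) * (m + 3) := by ring
      _ = c * (m + 3) := by rw [hδP]
      _ ≤ cl0 := hcl1
  have hlow := hZL (c1 D F) 1 1 hc1 one_pos ((1 / 2 + t * Complex.I : ℂ) - m) δ hδ0 hδ2 hs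
    hnear
  rw [← hΦd] at hΦ hΦ0 hΦW hZ1 hZ2 hZK hZA
  have hZ4 : ∀ r : ℝ, 0 < r → uu Φ (c1 D F) r ≠ 0 → r0⁻¹ ≤ r ∧ r ≤ r0 := by
    rw [hΦd]
    exact hZ3
  have hAd : Adm F (Pool.Agent.H34.GA.cf Φ) := Or.inr hΦ0
  have hWc := hSMA m N T D hS F lam hF.toCusB hNZ Φ hΦ hAd
  obtain ⟨L', hL', hLW'⟩ := hENA m N T D hS F lam hF.toCusB hNZ
  have hLe : L = L' := isl_uniq hLL hL'
  have hLW : ∀ s : ℂ, LmA m (uu Φ (c1 D F)) lam s = L s * MelA m (uu Φ (c1 D F)) s := by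
    rw [hLe]
    exact hLW' _ hWc
  have hne : ∃ s : ℂ, L s ≠ 0 := isl_ne hLL (lam_one hS hF.toHecA hNZ)
  have hFE := hFEC m N T D hS H xv hFr F lam hF.toCusB hNZ Φ hΦ hAd
  obtain ⟨-, hcψ, hMel⟩ := hMLZ m hm (c1 D F) 1 hc1 Φ hΦ.toTg
  have hcψ' : ContinuousOn (uu (Pool.Agent.H34.GA.cf Φ) (c2 D H xv F)) (Set.Ioi 0) :=
    (hΦW _ hc2').2.diff.continuousOn
  -- the products
  obtain ⟨Pr0, hPr0⟩ : ∃ Pr0 : ℝ, Pr0 = ∏ i : Fin m, ∏ j,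
      ‖(1 / 2 + t * Complex.I : ℂ) - ((i : ℕ) + 1) - mu j‖ := ⟨_, rfl⟩
  obtain ⟨Pr1, hPr1⟩ : ∃ Pr1 : ℝ, Pr1 = ∏ i : Fin m, ∏ j,
      min 1 ‖(1 / 2 + t * Complex.I : ℂ) - ((i : ℕ) + 1) - mu j‖ := ⟨_, rfl⟩
  rw [← hPr1]
  have hPr1n : 0 ≤ Pr1 := by
    rw [hPr1]
    exact Finset.prod_nonneg fun _ _ => Finset.prod_nonneg fun _ _ =>
      le_min zero_le_one (norm_nonneg _)
  rcases hPr1n.eq_or_lt with hz1 | hPr1p
  · rw [← hz1, mul_zero]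
    have hI0 : 0 ≤ ∫ τ : ℝ, k τ * ‖SX lam X (1 / 2 + ((t + τ : ℝ) : ℂ) * Complex.I)‖ :=
      integral_nonneg fun τ => mul_nonneg (hk.nn τ) (norm_nonneg _)
    positivity
  obtain ⟨hw1, hw2, hw3⟩ := hyb_prod (fun i j => (1 / 2 + t * Complex.I : ℂ) -
    (((i : ℕ) : ℂ) + 1) - mu j) (by rw [← hPr1]; exact hPr1p)
  rw [← hPr0, ← hPr1] at hw1 hw2
  obtain ⟨M1, hM1d⟩ : ∃ M1 : ℝ, M1 = CU * δ ^ (m * m) * (Pr0 / Pr1) := ⟨_, rfl⟩
  have hPr0p : 0 < Pr0 := by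
    rw [hPr0]
    exact hw3
  have hM10 : 0 ≤ M1 := by
    rw [hM1d]
    positivity
  have hM1 : ∀ u : ℝ, ‖MelA m (uu Φ (c1 D F)) (1 / 2 + u * Complex.I)‖ ≤
      M1 * (1 + |u - t|) ^ (m * m) := by
    intro u
    rw [hMel, hZA u]
    have h1 := hw2 (fun i j => (1 / 2 + u * Complex.I : ℂ) - (((i : ℕ) : ℂ) + 1) - mu j)
      |u - t| (by
        intro i j
        have h2 : (1 / 2 + u * Complex.I : ℂ) - (((i : ℕ) : ℂ) + 1) - mu j -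
            ((1 / 2 + t * Complex.I : ℂ) - (((i : ℕ) : ℂ) + 1) - mu j) =
            ((u - t : ℝ) : ℂ) * Complex.I := by
          push_cast
          ring
        rw [h2, norm_mul, Complex.norm_I, mul_one, Complex.norm_real, Real.norm_eq_abs])
    calc _ ≤ (Pr0 / Pr1 * (1 + |u - t|) ^ (m * m)) * (CU * δ ^ (m * m)) :=
          mul_le_mul h1 (hZU u) (norm_nonneg _) (by positivity)
      _ = _ := by
          rw [hM1d]
          ring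
  have hM2 : ∀ u : ℝ, ‖MelA m (uu (Pool.Agent.H34.GA.cf Φ) (c2 D H xv F))
      (1 / 2 + u * Complex.I)‖ ≤ M1 * (1 + |u - t|) ^ (m * m) := by
    intro u
    rw [hZPE m N B r0 lam (uu Φ (c1 D F)) (uu (Pool.Agent.H34.GA.cf Φ) (c2 D H xv F)) L hm hN1
      hr0 hcψ hcψ' hZ4 hZK hlam hFE hLL hLW hne u]
    exact hM1 u
  have hX' : CA * ((N : ℝ) * δ⁻¹ ^ m) ^ (1 / 2 : ℝ) * ((N : ℝ) / δ) ^ ε ≤ X := by
    refine le_trans ?_ hX
    rw [hδd, hya_pow hN0 hP0 hc, hya_pow2 m hN0 hP0 hc]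
    have h7 : CA * ((c⁻¹ ^ m) ^ (1 / 2 : ℝ) * ((N : ℝ) * P ^ m) ^ (1 / 2 : ℝ)) *
        (c ^ (-ε) * ((N : ℝ) * P) ^ ε) =
        C1 * ((N : ℝ) * P ^ m) ^ (1 / 2 : ℝ) * ((N : ℝ) * P) ^ ε := by
      rw [hC1]
      ring
    rw [h7]
    refine mul_le_mul_of_nonneg_right (mul_le_mul_of_nonneg_right ?_ ?_) ?_
    · linarith
    · positivity
    · positivity
  have hfin := hA N δ CZ lam (uu Φ (c1 D F)) (uu (Pool.Agent.H34.GA.cf Φ) (c2 D H xv F)) hN1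
    hδ0 hδ2 hCZ0.le hcψ hcψ' hZ4 hZ2.1 hlam hFE t M1 hM10 hM1 hM2 X hX'
  obtain ⟨I, hI⟩ : ∃ I : ℝ, I = ∫ τ : ℝ, k τ *
    ‖SX lam X (1 / 2 + ((t + τ : ℝ) : ℂ) * Complex.I)‖ := ⟨_, rfl⟩
  have hI0 : 0 ≤ I := by
    rw [hI]
    exact integral_nonneg fun τ => mul_nonneg (hk.nn τ) (norm_nonneg _)
  rw [← hI] at hfin ⊢
  rw [hLW, hMel, norm_mul, hZA t, ← hPr0] at hfin
  have hdN : (δ / N) ^ (m * m) ≤ δ ^ (m * m) :=
    pow_le_pow_left₀ (by positivity) (div_le_self hδ0.le hN1) _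
  have h8 := hyb_fin (norm_nonneg (L (1 / 2 + t * Complex.I))) hcl (by positivity) hPr0p hPr1p
    hw1 hCZ0.le hCU.le (by positivity) hI0 hlow hdN hM1d hfin
  refine h8.trans ?_
  rw [hδd, hya_pow hN0 hP0 hc]
  have h9 : CA * (CZ + CU) * cl⁻¹ * (c ^ (-ε) * ((N : ℝ) * P) ^ ε) * (1 + I) =
      C2 * ((N : ℝ) * P) ^ ε * (1 + I) := by
    rw [hC2]
    ring
  rw [h9]
  refine mul_le_mul_of_nonneg_right (mul_le_mul_of_nonneg_right ?_ ?_) ?_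
  · linarith
  · positivity
  · linarith

end Pool.Agent.H69.GH
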