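import Pool.Agent.H84.GB.ZPB
import Pool.Agent.H69.GH.Targets

/-!
Board gb, removal of the weight: upper bound for the zeta integral of the bump function (after
`Pool/Agent/H84/GB/ZPB.lean` of helper84).
-/

set_option autoImplicit false

namespace Pool.Agent.H69.GH

open MeasureTheory Pool.Agent.H34.GM Pool.Agent.H34.GU Pool.Agent.H34.GA Pool.Agent.H84.GA
  Pool.Agent.H23.GB
open Pool.Agent.H34.GZ hiding eu eu2 cf

theorem pf_ZBU (hBIA : T_BIA) : T_ZBU := by
  intro m χ hm1 hχ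
  obtain ⟨C2, hC2, hK⟩ := BD.KK_bd (m := m)
  set v : ENNReal := (volume : Measure (V m)) (Metric.ball 0 1) with hv
  have hvt : v ≠ ⊤ := measure_ball_lt_top.ne
  have hC20 : 0 < C2 := by linarith
  obtain ⟨Cb, hCb, hbi⟩ := hBIA m χ hm1 hχ
  refine ⟨(C2 ^ ((m : ℝ) / 2)) * (C2 ^ m * v.toReal) + 1, by positivity, ?_⟩
  intro δ hδ hδ2 f hf t
  have hb : ∀ z : Mat m, ‖bi m χ δ z‖ ≤ 1 := fun z => ((hbi δ hδ hδ2).2 z).1
  set S : Set (V m) := BD.KK m ∩ Metric.closedBall (BD.oneV m) δ with hS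
  have hScl : IsClosed S := BD.KK_comp.isClosed.inter Metric.isClosed_closedBall
  have hsupp : ∀ z : V m, bi m χ δ (mt z) ≠ 0 → z ∈ S := by
    intro z hz
    refine ⟨BD.mem_KK hχ hδ hδ2 hz, ?_⟩
    rw [mem_closedBall_iff_norm]
    exact BD.sz_sub_le hχ hδ hz
  have hmS : hm m S ≤ ENNReal.ofReal (C2 ^ m) * (ENNReal.ofReal (δ ^ (m * m)) * v) := by
    have h1 : hm m S = ∫⁻ z in S, ENNReal.ofReal ((|(mt z).det| ^ m)⁻¹) := by
      unfold hm
      rw [withDensity_apply _ hScl.measurableSet]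
    have h2 : (volume : Measure (V m)) S ≤ ENNReal.ofReal (δ ^ (m * m)) * v := by
      refine (measure_mono Set.inter_subset_right).trans ?_
      rw [Measure.addHaar_closedBall _ _ hδ.le]
      have h3 : Module.finrank ℝ (V m) = m * m := by
        rw [Module.finrank_pi_fintype]
        simp
      rw [h3]
    rw [h1]
    calc ∫⁻ z in S, ENNReal.ofReal ((|(mt z).det| ^ m)⁻¹)
        ≤ ∫⁻ _z in S, ENNReal.ofReal (C2 ^ m) := by
          apply setLIntegral_mono' hScl.measurableSet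
          intro z hz
          apply ENNReal.ofReal_le_ofReal
          rw [← inv_pow]
          have h4 := (hK z hz.1).1
          apply pow_le_pow_left₀ (by positivity)
          rw [inv_le_comm₀ (abs_pos.2 (BD.KK_pos hz.1).ne') (by linarith)]
          exact h4
      _ = ENNReal.ofReal (C2 ^ m) * (volume : Measure (V m)) S := by
          rw [setLIntegral_const]
      _ ≤ _ := mul_le_mul_right h2 _
  have hpt : ∀ z : V m, ‖bi m χ δ (mt z) *
      ((|(mt z).det| : ℝ) : ℂ) ^ (((1 / 2 + t * Complex.I : ℂ) - m) + ((m : ℂ) - 1) / 2) *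
        f (mt z)‖ ≤ S.indicator (fun _ => C2 ^ ((m : ℝ) / 2)) z := by
    intro z
    by_cases hz : z ∈ S
    · rw [Set.indicator_of_mem hz, norm_mul, norm_mul]
      have hd : 0 < |(mt z).det| := abs_pos.2 (BD.KK_pos hz.1).ne'
      have h1 : ‖((|(mt z).det| : ℝ) : ℂ) ^ (((1 / 2 + t * Complex.I : ℂ) - m) +
          ((m : ℂ) - 1) / 2)‖ ≤ C2 ^ ((m : ℝ) / 2) := by
        rw [Complex.norm_cpow_eq_rpow_re_of_pos hd]
        have h2 : (((1 / 2 + t * Complex.I : ℂ) - m) + ((m : ℂ) - 1) / 2).re =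
            -((m : ℝ) / 2) := by
          have : (((1 / 2 + t * Complex.I : ℂ) - m) + ((m : ℂ) - 1) / 2) =
            ((-((m : ℝ) / 2) : ℝ) : ℂ) + ((t : ℝ) : ℂ) * Complex.I := by
            push_cast
            ring
          rw [this]
          simp
        rw [h2, Real.rpow_neg hd.le, ← Real.inv_rpow hd.le]
        refine Real.rpow_le_rpow (by positivity) ?_ (by positivity)
        rw [inv_le_comm₀ hd hC20]
        exact (hK z hz.1).1
      have h3 : ‖f (mt z)‖ ≤ 1 := hf.bd _ (BD.KK_pos hz.1).ne'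
      calc ‖bi m χ δ (mt z)‖ * ‖((|(mt z).det| : ℝ) : ℂ) ^
            (((1 / 2 + t * Complex.I : ℂ) - m) + ((m : ℂ) - 1) / 2)‖ * ‖f (mt z)‖
          ≤ 1 * C2 ^ ((m : ℝ) / 2) * 1 := by
            apply mul_le_mul _ h3 (norm_nonneg _) (by positivity)
            exact mul_le_mul (hb _) h1 (norm_nonneg _) (by positivity)
        _ = _ := by ring
    · rw [Set.indicator_of_notMem hz]
      have h1 : bi m χ δ (mt z) = 0 := by
        by_contra hn
        exact hz (hsupp z hn)
      rw [h1, zero_mul, zero_mul, norm_zero]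
  have hint : (∫⁻ z : V m, ‖bi m χ δ (mt z) *
      ((|(mt z).det| : ℝ) : ℂ) ^ (((1 / 2 + t * Complex.I : ℂ) - m) + ((m : ℂ) - 1) / 2) *
        f (mt z)‖ₑ ∂(hm m)) ≤
      ENNReal.ofReal (C2 ^ ((m : ℝ) / 2) * (C2 ^ m * v.toReal) * δ ^ (m * m)) := by
    calc (∫⁻ z : V m, ‖bi m χ δ (mt z) *
          ((|(mt z).det| : ℝ) : ℂ) ^ (((1 / 2 + t * Complex.I : ℂ) - m) + ((m : ℂ) - 1) / 2) *
            f (mt z)‖ₑ ∂(hm m))
        ≤ ∫⁻ z : V m, S.indicator (fun _ => ENNReal.ofReal (C2 ^ ((m : ℝ) / 2))) z ∂(hm m) := by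
          apply lintegral_mono
          intro z
          have h1 := hpt z
          beta_reduce
          rw [← ofReal_norm]
          by_cases hz : z ∈ S
          · rw [Set.indicator_of_mem hz] at h1
            rw [Set.indicator_of_mem hz]
            exact ENNReal.ofReal_le_ofReal h1
          · rw [Set.indicator_of_notMem hz] at h1
            rw [Set.indicator_of_notMem hz]
            rw [ENNReal.ofReal_of_nonpos h1]
      _ = ENNReal.ofReal (C2 ^ ((m : ℝ) / 2)) * hm m S := by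
          rw [lintegral_indicator_const hScl.measurableSet]
      _ ≤ ENNReal.ofReal (C2 ^ ((m : ℝ) / 2)) *
          (ENNReal.ofReal (C2 ^ m) * (ENNReal.ofReal (δ ^ (m * m)) * v)) :=
          mul_le_mul_right hmS _
      _ = ENNReal.ofReal (C2 ^ ((m : ℝ) / 2) * (C2 ^ m * v.toReal) * δ ^ (m * m)) := by
          rw [← ENNReal.ofReal_toReal hvt, ← ENNReal.ofReal_mul (by positivity),
            ← ENNReal.ofReal_mul (by positivity), ← ENNReal.ofReal_mul (by positivity)]
          congr 1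
          rw [ENNReal.toReal_ofReal ENNReal.toReal_nonneg]
          ring
  have hfin : ‖ZA (bi m χ δ) f ((1 / 2 + t * Complex.I : ℂ) - m)‖ₑ ≤
      ENNReal.ofReal (C2 ^ ((m : ℝ) / 2) * (C2 ^ m * v.toReal) * δ ^ (m * m)) := by
    unfold ZA
    exact (enorm_integral_le_lintegral_enorm _).trans hint
  have h9 : 0 ≤ C2 ^ ((m : ℝ) / 2) * (C2 ^ m * v.toReal) * δ ^ (m * m) := by positivity
  rw [← ofReal_norm, ENNReal.ofReal_le_ofReal_iff h9] at hfin
  refine hfin.trans (mul_le_mul_of_nonneg_right ?_ (by positivity))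
  linarith

end Pool.Agent.H69.GH
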