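import Pool.Agent.H23.GHY.All
import Pool.Agent.H69.GH.AFG
import Pool.Agent.H69.GH.ZBU
import Pool.Agent.H69.GH.HYB
import Pool.Agent.H69.GH.GBX

/-!
Board gb, removal of the weight: everything composed, no hypotheses.
-/

namespace Pool.Agent.H69.GH

open Pool.Agent.H23.GHY.All in
theorem c_HYB : T_HYB :=
  pf_HYB Pool.Agent.H34.GM.pf_PRF Pool.Agent.H34.GU.b_FR1 pf_AFG d_ZPE d_LMB d_ZLS d_ZPB d_FEC
    Pool.Agent.H23.GA.All.c_MLZ Pool.Agent.H23.GA.All.c_ENA Pool.Agent.H23.GA.All.c_CNR c_CIF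
    Pool.Agent.H23.GA.All.c_CFA Pool.Agent.H23.GA.All.c_CFB Pool.Agent.H23.GA.All.c_ZAD
    Pool.Agent.H23.GA.All.c_SMA Pool.Agent.H23.GA.All.c_PHB Pool.Agent.H23.GA.All.c_BIA
    (pf_ZBU Pool.Agent.H23.GA.All.c_BIA)

open Pool.Agent.H23.GHY.All in
/-- the hybrid fourth moment, the weight is `∏ min(1, |1/2 + it - k - μ_j|)` -/
theorem c_GBX : T_GBX :=
  pf_GBX Pool.Agent.H23.GA.All.c_ENA c_HYB c_DYD c_CRD

end Pool.Agent.H69.GH
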